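import Pool.Agent.X42.HamLLL

/-!
# The pair-degree threshold for (2,2)-acceptable Hamilton cycles grows linearly
-/

set_option autoImplicit false

namespace Pool.Agent.Results.MP_626dc7_co.LinearGrowth

open Pool.Agent.X42.HamLLL

/-- `m₂((2,2), n) > n / 16384` for all `n ≥ 6`. -/
theorem result : ∀ n : ℕ, 6 ≤ n → (1 / 16384 : ℝ) * n < m2 n := by
  intro n hn
  have h := lt_m2 hn
  have h' : (n : ℝ) < 16384 * m2 n := by exact_mod_cast h
  linarith

end Pool.Agent.Results.MP_626dc7_co.LinearGrowth
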